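import Pool.Agent.Helper73.HM.St
import Pool.Agent.Helper73.HE.Can

/-! # HM module OZ: ordinal definable sets are definable in some `V_θ` without parameters -/

namespace Pool.Agent.Helper30.HM

open Ordinal Cardinal ZFSet Order Pool.Agent.Helper73.HODC Pool.Agent.Helper73.HE
  Pool.Agent.Helper73.HM

/-- the canonical set with the property `N` -/
def CanN (N : ZFSet.{0} → Prop) (c : Fm × ℕ) (F : ZFSet.{0}) : Prop :=
  ∃ q, DefBy c F q ∧ N F ∧ ∀ F' q', DefBy c F' q' → N F' → LexLe (c.2 + 1) q q'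

theorem canN_unique {N : ZFSet.{0} → Prop} {c : Fm × ℕ} {F F' : ZFSet.{0}} (h : CanN N c F)
    (h' : CanN N c F') : F = F' := by
  obtain ⟨q, h1, hb, h2⟩ := h
  obtain ⟨q', h1', hb', h2'⟩ := h'
  exact can_defBy_unique (bf_lexLe_antisymm (h2 _ _ h1' hb') (h2' _ _ h1 hb)) h1 h1'

theorem exists_canN {N : ZFSet.{0} → Prop} {F : ZFSet.{0}} (h : OD F) (hb : N F) :
    ∃ c F', CanN N c F' := by
  obtain ⟨θ, φ, p, hp, hgθ, hdef⟩ := h
  obtain ⟨m, hm⟩ := exists_bd φ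
  have h0 : 0 < θ := lt_of_le_of_lt zero_le (hp 0)
  have hD : DefBy (φ, m) F (fun n => Nat.casesOn n θ p) := by
    refine ⟨?_, hgθ, ?_⟩
    · intro k
      unfold par
      split_ifs
      · exact hp k
      · exact h0
    · intro y hy
      rw [← hdef y hy]
      apply hm
      intro n hn
      rcases n with _ | k
      · rfl
      · have hk : k < m := by omega
        show (par m (fun n => Nat.casesOn n θ p) k).toZFSet = (p k).toZFSet
        unfold par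
        rw [if_pos hk]
  obtain ⟨q₀, ⟨F₀, h₀, hb₀⟩, hmin⟩ := bf_exists_lexLe (m + 1)
    {q | ∃ F, DefBy (φ, m) F q ∧ N F} ⟨_, F, hD, hb⟩
  exact ⟨(φ, m), F₀, q₀, h₀, hb₀, fun F' q' h' hb' => hmin q' ⟨F', h', hb'⟩⟩

theorem dfn_worse {N : ZFSet.{0} → Prop} (hN : ∀ k : ℕ, Dfn (fun v => N (v k))) (c : Fm × ℕ)
    (d : ℕ) (s : ℕ → ℕ) :
    Dfn (fun v => ∃ q' : ℕ → Ordinal.{0}, DefBy c (v d) q' ∧ N (v d) ∧
      ¬ LexLe (c.2 + 1) (fun n => (v (s n)).rank) q') := by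
  refine (bf_dfn_exApp (c.2 + 1) (P := fun u => DefBy c (u (d + (c.2 + 1)))
    (fun n => (u n).rank) ∧ N (u (d + (c.2 + 1))) ∧
      ¬ LexLe (c.2 + 1) (fun n => (u (s n + (c.2 + 1))).rank) (fun n => (u n).rank))
    ((can_dfn_defBy c _ (fun n => n)).and ((hN _).and
      (bf_dfn_lexLe (c.2 + 1) (fun n => s n + (c.2 + 1)) (fun n => n)).not))).bf_congr ?_
  intro v
  constructor
  · rintro ⟨w, h1, h2, h3⟩
    simp only [bf_app_ge] at h1 h2 h3
    exact ⟨_, h1, h2, h3⟩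
  · rintro ⟨q', h1, h2, h5⟩
    refine ⟨fun n => (q' n).toZFSet, ?_⟩
    simp only [bf_app_ge]
    have h3 : ∀ n < c.2 + 1, q' n = (bfApp (c.2 + 1) (fun n => (q' n).toZFSet) v n).rank := by
      intro n hn
      rw [bf_app_lt _ _ hn, rank_toZFSet]
    refine ⟨can_defBy_congr h3 h1, h2, fun h4 => h5 ?_⟩
    exact bf_lexLe_congr (fun _ _ => rfl) (fun n hn => (h3 n hn).symm) h4

theorem dfn_min {N : ZFSet.{0} → Prop} (hN : ∀ k : ℕ, Dfn (fun v => N (v k))) (c : Fm × ℕ)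
    (s : ℕ → ℕ) :
    Dfn (fun v => ∀ (F' : ZFSet.{0}) (q' : ℕ → Ordinal.{0}), DefBy c F' q' →
      N F' → LexLe (c.2 + 1) (fun n => (v (s n)).rank) q') := by
  refine (Dfn.all (Q := fun F v => ¬ ∃ q' : ℕ → Ordinal.{0}, DefBy c F q' ∧
    N F ∧ ¬ LexLe (c.2 + 1) (fun n => (v (s n)).rank) q') ?_).bf_congr ?_
  · exact (dfn_worse hN c 0 (fun n => s n + 1)).not
  · intro v
    constructor
    · intro h F' q' h1 h2
      by_contra h3
      exact h F' ⟨q', h1, h2, h3⟩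
    · rintro h F ⟨q', h1, h2, h3⟩
      exact h3 (h _ _ h1 h2)

theorem dfn_canN {N : ZFSet.{0} → Prop} (hN : ∀ k : ℕ, Dfn (fun v => N (v k))) (c : Fm × ℕ)
    (k : ℕ) : Dfn (fun v => CanN N c (v k)) := by
  refine (bf_dfn_exApp (c.2 + 1) (P := fun u => DefBy c (u (k + (c.2 + 1)))
    (fun n => (u n).rank) ∧ N (u (k + (c.2 + 1))) ∧
      ∀ (F' : ZFSet.{0}) (q' : ℕ → Ordinal.{0}), DefBy c F' q' →
        N F' → LexLe (c.2 + 1) (fun n => (u n).rank) q')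
    ((can_dfn_defBy c _ (fun n => n)).and ((hN _).and
      (dfn_min hN c (fun n => n))))).bf_congr ?_
  intro v
  constructor
  · rintro ⟨w, h1, h2, h3⟩
    simp only [bf_app_ge] at h1 h2 h3
    exact ⟨_, h1, h2, h3⟩
  · rintro ⟨q, h1, h2, h4⟩
    refine ⟨fun n => (q n).toZFSet, ?_⟩
    simp only [bf_app_ge]
    have h3 : ∀ n < c.2 + 1, q n = (bfApp (c.2 + 1) (fun n => (q n).toZFSet) v n).rank := by
      intro n hn
      rw [bf_app_lt _ _ hn, rank_toZFSet]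
    refine ⟨can_defBy_congr h3 h1, h2, fun F' q' h5 h6 => ?_⟩
    exact bf_lexLe_congr h3 (fun _ _ => rfl) (h4 F' q' h5 h6)

/-- no parameter free definition in any `V_θ` -/
def NoDz (x : ZFSet.{0}) : Prop := ¬ ∃ θ c, Dz θ c x

theorem dfn_noDz (h : StTD) (k : ℕ) : Dfn (fun v => NoDz (v k)) := by
  refine Dfn.not ?_
  refine Dfn.exO (Q := fun θ v => ∃ c, Dz θ c (v k)) ?_
  exact Dfn.ex (Q := fun c v => Dz (v 0).rank c (v (k + 1))) (h 1 0 (k + 2))

theorem oz (h : StTD) : StOZ := by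
  intro x
  constructor
  · intro hx
    by_contra hno
    obtain ⟨c, F, hF⟩ := exists_canN (N := NoDz) hx hno
    obtain ⟨ψ, hψ⟩ := dfn_canN (dfn_noDz h) c 0
    obtain ⟨θ, hθ, hr⟩ := reflection ψ F.rank
    have hFθ : F ∈ V_ θ := mem_vonNeumann.2 hθ
    obtain ⟨q, -, hN, -⟩ := id hF
    refine hN ⟨θ, code ψ, ψ, rfl, hFθ, fun y hy => ?_⟩
    rw [hr (fun _ => y) (fun _ => hy), hψ (fun _ => y)]
    constructor
    · intro h1
      exact canN_unique h1 hF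
    · rintro rfl
      exact hF
  · rintro ⟨θ, c, φ, -, hx, hdef⟩
    have h0 : 0 < θ := lt_of_le_of_lt zero_le (mem_vonNeumann.1 hx)
    refine ⟨θ, ren (fun _ => 0) φ, fun _ => 0, fun _ => h0, hx, fun y hy => ?_⟩
    rw [sat_ren]
    exact hdef y hy

end Pool.Agent.Helper30.HM
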